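import Pool.Agent.Q103.EC.Stm1

/-! # Project EC (helper103), job A5 (helper177): concavity of `phi` in the weights -/

set_option autoImplicit false

namespace Pool.Agent.Q177.EC

open Finset
open Pool.Agent.Q41.SU

theorem phi_le (w₁ w₂ a b : ℕ) (T : Finset (II a b)) :
    phi w₁ w₂ a b T.card ≤ ∑ x ∈ T, (w₁ * (x.1 : ℕ) + w₂ * (x.2 : ℕ)) :=
  Nat.sInf_le ⟨T, rfl, rfl⟩

theorem phi_attained (w₁ w₂ a b n : ℕ) (hn : n ≤ Fintype.card (II a b)) :
    ∃ T : Finset (II a b), T.card = n ∧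
      phi w₁ w₂ a b n = ∑ x ∈ T, (w₁ * (x.1 : ℕ) + w₂ * (x.2 : ℕ)) := by
  have hne : {m : ℕ | ∃ T : Finset (II a b), T.card = n ∧
      m = ∑ x ∈ T, (w₁ * (x.1 : ℕ) + w₂ * (x.2 : ℕ))}.Nonempty := by
    obtain ⟨T, -, hT⟩ := Finset.exists_subset_card_eq (s := (univ : Finset (II a b))) (n := n)
      (by rwa [Finset.card_univ])
    exact ⟨_, T, hT, rfl⟩
  exact Nat.sInf_mem hne

theorem phi_zero (w₁ w₂ a b n : ℕ) (hn : Fintype.card (II a b) < n) : phi w₁ w₂ a b n = 0 := by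
  unfold phi
  rw [Nat.sInf_eq_zero]
  right
  rw [Set.eq_empty_iff_forall_notMem]
  rintro m ⟨T, hT, -⟩
  have := Finset.card_le_univ T
  omega

theorem t_cnc : Pool.Agent.Q103.EC.S_cnc := by
  intro a b J n hJ
  rcases Nat.lt_or_ge (Fintype.card (II a b)) n with hn | hn
  · rw [phi_zero _ _ _ _ _ hn, phi_zero _ _ _ _ _ hn, phi_zero _ _ _ _ _ hn,
      phi_zero _ _ _ _ _ hn]
    simp
  · obtain ⟨T, hT, e⟩ := phi_attained 1 1 a b n hn
    have h10 := phi_le 1 0 a b T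
    have h01 := phi_le 0 1 a b T
    have h1J := phi_le 1 J a b T
    rw [hT] at h10 h01 h1J
    simp only [one_mul, zero_mul, add_zero, zero_add, sum_add_distrib, ← mul_sum] at e h10 h01 h1J
    rw [e]
    constructor
    · omega
    · obtain ⟨j, rfl⟩ : ∃ j, J = j + 1 := ⟨J - 1, by omega⟩
      rw [Nat.add_sub_cancel]
      nlinarith

end Pool.Agent.Q177.EC
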