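import Pool.Agent.Q177.EC.Red
import Pool.Agent.Q22.EC.Stm

/-!
The amalgamated product of two groups: factor stability, and the lemma on a malnormal amalgamated
subgroup of index two.
-/

set_option autoImplicit false

universe u

namespace Pool.Agent.Q177.EC

open Monoid

/-- the family of two groups -/
def Fam (A B : Type u) : Bool → Type u
  | true => A
  | false => B

instance (A B : Type u) [Group A] [Group B] : ∀ i, Group (Fam A B i)
  | true => inferInstanceAs (Group A)
  | false => inferInstanceAs (Group B)

/-- the family of two homomorphisms -/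
def mp {N A B : Type u} [Group N] [Group A] [Group B] (φ : N →* A) (ψ : N →* B) :
    ∀ i, N →* Fam A B i
  | true => φ
  | false => ψ

/-- the family of two homomorphisms into a group -/
def mq {A B L : Type u} [Group L] [Group A] [Group B] (f : A →* L) (g : B →* L) :
    ∀ i, Fam A B i →* L
  | true => f
  | false => g

theorem amalg : Q22.EC.S_AMALG.{u} := by
  intro N A B _ _ _ φ ψ hφ hψ
  have hinj : ∀ i, Function.Injective (mp φ ψ i) := by
    intro i
    cases i
    · exact hψ
    · exact hφ
  let a : A →* PushoutI (mp φ ψ) := PushoutI.of (φ := mp φ ψ) true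
  let b : B →* PushoutI (mp φ ψ) := PushoutI.of (φ := mp φ ψ) false
  have ha : Function.Injective a := PushoutI.of_injective hinj true
  have hb : Function.Injective b := PushoutI.of_injective hinj false
  have haφ : ∀ n, a (φ n) = PushoutI.base (mp φ ψ) n :=
    fun n => PushoutI.of_apply_eq_base (mp φ ψ) true n
  have hbψ : ∀ n, b (ψ n) = PushoutI.base (mp φ ψ) n :=
    fun n => PushoutI.of_apply_eq_base (mp φ ψ) false n
  have hab : ∀ n, a (φ n) = b (ψ n) := fun n => by rw [haφ, hbψ]
  let p : List (Σ i, Fam A B i) → PushoutI (mp φ ψ) := P (mp φ ψ)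
  have hpnil : p [] = 1 := P_nil
  have hexA : ∀ g : PushoutI (mp φ ψ), ∃ (k : A) (l : List (Σ i, Fam A B i)), Red (mp φ ψ) l ∧
      NS true l ∧ g = a k * p l := fun g => exists_red (φ := mp φ ψ) g true
  have hconj : ∀ y : A, y ∉ φ.range → ∀ l : List (Σ i, Fam A B i), Red (mp φ ψ) l → NS true l →
      (p l)⁻¹ * a y * p l ∈ a.range → l = [] := by
    intro y hy l hl hns h
    exact (conj_of hinj (i := true) (j := true) (y := y) hy hl hns h).1
  have hsB : ∀ l : List (Σ i, Fam A B i), l ≠ [] → Red (mp φ ψ) l → NS true l →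
      ∃ (y : B) (l' : List (Σ i, Fam A B i)), y ∉ ψ.range ∧ p l = b y * p l' ∧
        Red (mp φ ψ) l' ∧ NS false l' := by
    intro l hne hl hns
    rcases l with _ | ⟨⟨i, y⟩, l⟩
    · exact absurd rfl hne
    · have hi : i = false := by
        have h1 := hns ⟨i, y⟩ (by simp)
        cases i
        · rfl
        · exact absurd rfl h1
      subst hi
      exact ⟨y, l, hl.1 ⟨false, y⟩ (by simp), P_cons _ _,
        ⟨fun x hx => hl.1 x (List.mem_cons_of_mem _ hx), hl.2.tail⟩,
        fun z hz => ((List.isChain_cons.mp hl.2).1 z hz).symm⟩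
  have hsA : ∀ l : List (Σ i, Fam A B i), l ≠ [] → Red (mp φ ψ) l → NS false l →
      ∃ (y : A) (l' : List (Σ i, Fam A B i)), y ∉ φ.range ∧ p l = a y * p l' ∧
        Red (mp φ ψ) l' ∧ NS true l' := by
    intro l hne hl hns
    rcases l with _ | ⟨⟨i, y⟩, l⟩
    · exact absurd rfl hne
    · have hi : i = true := by
        have h1 := hns ⟨i, y⟩ (by simp)
        cases i
        · exact absurd rfl h1
        · rfl
      subst hi
      exact ⟨y, l, hl.1 ⟨true, y⟩ (by simp), P_cons _ _,
        ⟨fun x hx => hl.1 x (List.mem_cons_of_mem _ hx), hl.2.tail⟩,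
        fun z hz => ((List.isChain_cons.mp hl.2).1 z hz).symm⟩
  clear_value p
  refine ⟨PushoutI (mp φ ψ), inferInstance, a, b, ha, hb, hab, ?_, ?_, ?_, ?_⟩
  · rw [eq_top_iff]
    intro x _
    induction x using PushoutI.induction_on with
    | of i g =>
      apply Subgroup.subset_closure
      cases i
      · exact Or.inr ⟨g, rfl⟩
      · exact Or.inl ⟨g, rfl⟩
    | base h =>
      apply Subgroup.subset_closure
      exact Or.inl ⟨φ h, haφ h⟩
    | mul x y ihx ihy => exact Subgroup.mul_mem _ (ihx trivial) (ihy trivial)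
  · intro L _ f g hfg
    refine ⟨PushoutI.lift (mq f g) (f.comp φ) ?_, ?_, ?_⟩
    · intro i
      cases i
      · ext n
        exact (hfg n).symm
      · rfl
    · intro x
      exact PushoutI.lift_of (φ := mp φ ψ) (mq f g) (f.comp φ) _ (i := true) x
    · intro y
      exact PushoutI.lift_of (φ := mp φ ψ) (mq f g) (f.comp φ) _ (i := false) y
  · clear_value a b
    intro S hS g hg
    obtain ⟨k, l, hl, hns, rfl⟩ := hexA g
    by_cases hnil : l = []
    · subst hnil
      rw [hpnil, mul_one]
      exact ⟨k, rfl⟩
    · exfalso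
      obtain ⟨s, hs, hsr⟩ := hS k
      have h1 := hg s hs
      apply hnil
      refine hconj _ hsr l hl hns ?_
      have h2 : (p l)⁻¹ * a (k⁻¹ * s * k) * p l = (a k * p l)⁻¹ * a s * (a k * p l) := by
        rw [map_mul, map_mul, map_inv]
        group
      rw [h2]
      exact h1
  · clear_value a b
    intro hmal t ht c hc g hg
    obtain ⟨k, l, hl, hns, rfl⟩ := hexA g
    by_cases hnil : l = []
    · subst hnil
      left
      rw [hpnil, mul_one]
      exact ⟨k, rfl⟩
    · obtain ⟨y, l', hy, hpy, hl', hns'⟩ := hsB l hnil hl hns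
      -- the first letter lies in the amalgamated subgroup
      have hk : k ∈ φ.range := by
        apply hmal c hc
        by_contra hcon
        have h2 : (p l)⁻¹ * a (k⁻¹ * φ c * k) * p l = (a k * p l)⁻¹ * a (φ c) * (a k * p l) := by
          rw [map_mul, map_mul, map_inv]
          group
        exact hnil (hconj _ hcon l hl hns (by rw [h2]; exact hg))
      obtain ⟨m, hm⟩ := hk
      have hy1 : ψ m * y ∉ ψ.range := by
        intro h
        apply hy
        have h2 := ψ.range.mul_mem (ψ.range.inv_mem ⟨m, rfl⟩) h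
        rwa [inv_mul_cancel_left] at h2
      obtain ⟨c1, hc1⟩ := (ht (ψ m * y)).resolve_left hy1
      have hg1 : a k * p l = b t * (a (φ c1) * p l') := by
        rw [hpy, ← hm, hab, hab, ← mul_assoc, ← mul_assoc, ← map_mul, ← map_mul, hc1]
      rw [hg1] at hg ⊢
      by_cases hnil' : l' = []
      · right
        exact ⟨φ c1, by rw [hnil', hpnil, mul_one]⟩
      · obtain ⟨x, l'', hx, hpx, hl'', hns''⟩ := hsA l' hnil' hl' hns'
        have hx1 : φ c1 * x ∉ φ.range := by
          intro h
          apply hx
          have h2 := φ.range.mul_mem (φ.range.inv_mem ⟨c1, rfl⟩) h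
          rwa [inv_mul_cancel_left] at h2
        -- the conjugate by `t`
        obtain ⟨c2, hc2⟩ : ∃ c2, t⁻¹ * ψ c * t = ψ c2 := by
          rcases ht (ψ c * t) with ⟨e, he⟩ | ⟨e, he⟩
          · have h1 : t = ψ (c⁻¹ * e) := by
              rw [map_mul, map_inv, he]
              group
            refine ⟨(c⁻¹ * e)⁻¹ * c * (c⁻¹ * e), ?_⟩
            rw [map_mul, map_mul, map_inv, ← h1]
          · refine ⟨e, ?_⟩
            rw [mul_assoc, he]
            group
        have hc2' : c2 ≠ 1 := by
          rintro rfl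
          apply hc
          apply hψ
          rw [map_one] at hc2 ⊢
          have h1 : ψ c = t * (t⁻¹ * ψ c * t) * t⁻¹ := by group
          rw [h1, hc2]
          group
        have hg2 : (b t * (a (φ c1) * p l'))⁻¹ * a (φ c) * (b t * (a (φ c1) * p l')) =
            (p l'')⁻¹ * a ((φ c1 * x)⁻¹ * φ c2 * (φ c1 * x)) * p l'' := by
          have h1 : (b t)⁻¹ * a (φ c) * b t = a (φ c2) := by
            rw [hab, hab, ← hc2, map_mul, map_mul, map_inv]
          rw [hpx, map_mul a _ (φ c1 * x), map_mul a _ (φ c2), ← h1, map_inv, map_mul]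
          group
        rw [hg2] at hg
        have h1 := hconj _ (fun h => hx1 (hmal c2 hc2' _ h)) l'' hl'' hns'' hg
        right
        refine ⟨φ c1 * x, ?_⟩
        rw [hpx, h1, hpnil, map_mul, mul_one]

end Pool.Agent.Q177.EC
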