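import Mathlib

/-!
Reduced words in an amalgamated product of a family of groups.
-/

set_option autoImplicit false

universe u v w

namespace Pool.Agent.Q177.EC

open Monoid

variable {ι : Type v} {H : Type w} [Group H] {K : ι → Type u} [∀ i, Group (K i)]

/-- a reduced word: no letter in the amalgamated subgroup, neighbours in different factors -/
def Red (φ : ∀ i, H →* K i) (l : List (Σ i, K i)) : Prop :=
  (∀ x ∈ l, x.2 ∉ (φ x.1).range) ∧ l.IsChain (fun x y => x.1 ≠ y.1)

/-- the product of a word -/
def P (φ : ∀ i, H →* K i) (l : List (Σ i, K i)) : PushoutI φ :=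
  (l.map fun x => (PushoutI.of x.1 x.2 : PushoutI φ)).prod

/-- the word does not start with the index `j` -/
def NS (j : ι) (l : List (Σ i, K i)) : Prop := ∀ x ∈ l.head?, x.1 ≠ j

/-- the inverse word -/
def inv (l : List (Σ i, K i)) : List (Σ i, K i) := (l.map fun x => ⟨x.1, x.2⁻¹⟩).reverse

variable {φ : ∀ i, H →* K i}

theorem P_nil : P φ [] = 1 := rfl

theorem P_cons (x : Σ i, K i) (l : List (Σ i, K i)) :
    P φ (x :: l) = PushoutI.of x.1 x.2 * P φ l := by
  unfold P
  rw [List.map_cons, List.prod_cons]

theorem P_append (l m : List (Σ i, K i)) : P φ (l ++ m) = P φ l * P φ m := by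
  unfold P
  rw [List.map_append, List.prod_append]

theorem P_single (x : Σ i, K i) : P φ [x] = PushoutI.of x.1 x.2 := by
  rw [P_cons, P_nil, mul_one]

theorem P_inv (l : List (Σ i, K i)) : P φ (inv l) = (P φ l)⁻¹ := by
  induction l with
  | nil => simp [inv, P_nil]
  | cons x l ih =>
    have h1 : inv (x :: l) = inv l ++ [⟨x.1, x.2⁻¹⟩] := by
      unfold inv
      rw [List.map_cons, List.reverse_cons]
    rw [h1, P_append, ih, P_single, P_cons, mul_inv_rev, map_inv]

theorem red_inv {l : List (Σ i, K i)} (hl : Red φ l) : Red φ (inv l) := by
  constructor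
  · intro x hx
    unfold inv at hx
    rw [List.mem_reverse, List.mem_map] at hx
    obtain ⟨y, hy, rfl⟩ := hx
    intro h
    exact hl.1 y hy ((φ y.1).range.inv_mem_iff.mp h)
  · unfold inv
    rw [List.isChain_reverse, List.isChain_map]
    exact hl.2.imp (fun x y h => h.symm)

/-- a reduced word with product in the amalgamated subgroup is empty -/
theorem red_base (hφ : ∀ i, Function.Injective (φ i)) {l : List (Σ i, K i)} (hl : Red φ l)
    (h : P φ l ∈ (PushoutI.base φ).range) : l = [] := by
  let W : CoprodI.Word K :=
    { toList := l
      ne_one := fun x hx h1 => hl.1 x hx (by rw [h1]; exact (φ x.1).range.one_mem)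
      chain_ne := hl.2 }
  have h1 : PushoutI.Reduced φ W := fun x hx => hl.1 x hx
  have h2 : PushoutI.ofCoprodI W.prod = P φ l := by
    unfold CoprodI.Word.prod P
    rw [map_list_prod, List.map_map]
    congr 1
  have h3 := h1.eq_empty_of_mem_range hφ (by rw [h2]; exact h)
  exact congrArg CoprodI.Word.toList h3

/-- a reduced word with product in a factor is empty or a letter of this factor -/
theorem red_of (hφ : ∀ i, Function.Injective (φ i)) {l : List (Σ i, K i)} (hl : Red φ l) (j : ι)
    (h : P φ l ∈ (PushoutI.of j : K j →* PushoutI φ).range) : l = [] ∨ ∃ k, l = [⟨j, k⟩] := by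
  obtain ⟨y, hy⟩ := h
  by_cases hyr : y ∈ (φ j).range
  · left
    obtain ⟨z, rfl⟩ := hyr
    apply red_base hφ hl
    rw [← hy, PushoutI.of_apply_eq_base]
    exact ⟨z, rfl⟩
  · rcases List.eq_nil_or_concat l with rfl | ⟨l', x, rfl⟩
    · exact Or.inl rfl
    · right
      rw [List.concat_eq_append] at hl hy ⊢
      obtain ⟨i, k⟩ := x
      have hl' : Red φ l' := ⟨fun x hx => hl.1 x (List.mem_append_left _ hx),
        (List.isChain_append.mp hl.2).1⟩
      rw [P_append, P_single] at hy
      by_cases hij : i = j
      · subst hij
        have h1 : P φ l' = PushoutI.of i (y * k⁻¹) := by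
          rw [map_mul, map_inv, hy]
          group
        by_cases hk : k * y⁻¹ ∈ (φ i).range
        · have h2 : y * k⁻¹ ∈ (φ i).range := by
            rw [← (φ i).range.inv_mem_iff]
            simpa using hk
          obtain ⟨z, hz⟩ := h2
          have h3 : l' = [] := red_base hφ hl' (by
            rw [h1, ← hz, PushoutI.of_apply_eq_base]
            exact ⟨z, rfl⟩)
          exact ⟨k, by rw [h3]; rfl⟩
        · exfalso
          have h2 : Red φ (l' ++ [⟨i, k * y⁻¹⟩]) := by
            constructor
            · intro x hx
              rw [List.mem_append, List.mem_singleton] at hx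
              rcases hx with hx | rfl
              · exact hl'.1 x hx
              · exact hk
            · rw [List.isChain_append]
              refine ⟨hl'.2, List.isChain_singleton _, ?_⟩
              intro x hx z hz
              have h3 := (List.isChain_append.mp hl.2).2.2 x hx ⟨i, k⟩ (by simp)
              simp only [List.head?_cons, Option.mem_def, Option.some.injEq] at hz
              rw [← hz]
              exact h3
          have h3 := red_base hφ h2 (by
            rw [P_append, P_single, h1, ← map_mul]
            refine ⟨1, ?_⟩
            rw [map_one]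
            simp)
          simp at h3
      · exfalso
        have h2 : Red φ ((l' ++ [⟨i, k⟩]) ++ [⟨j, y⁻¹⟩]) := by
          constructor
          · intro x hx
            rw [List.mem_append, List.mem_singleton] at hx
            rcases hx with hx | rfl
            · exact hl.1 x hx
            · intro h
              exact hyr ((φ j).range.inv_mem_iff.mp h)
          · rw [List.isChain_append]
            refine ⟨hl.2, List.isChain_singleton _, ?_⟩
            intro x hx z hz
            simp only [List.head?_cons, Option.mem_def, Option.some.injEq] at hz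
            rw [List.getLast?_append_of_ne_nil _ (by simp)] at hx
            simp only [List.getLast?_singleton, Option.mem_def, Option.some.injEq] at hx
            rw [← hz, ← hx]
            exact hij
        have h3 := red_base hφ h2 (by
          rw [P_append, P_append, P_single, P_single, ← hy, ← map_mul]
          refine ⟨1, ?_⟩
          rw [map_one]
          simp)
        simp at h3

/-- every element is an element of a chosen factor times a reduced word which does not start in
this factor -/
theorem exists_red (g : PushoutI φ) (j : ι) :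
    ∃ (k : K j) (l : List (Σ i, K i)), Red φ l ∧ NS j l ∧ g = PushoutI.of j k * P φ l := by
  classical
  -- multiplication by the base
  have hb : ∀ (i j : ι) (h : H) (l : List (Σ i, K i)), Red φ l →
      ∃ (k : K j) (l' : List (Σ i, K i)), Red φ l' ∧ NS j l' ∧
        PushoutI.of i (φ i h) * P φ l = PushoutI.of j k * P φ l' := by
    intro i j h l hl
    rcases l with _ | ⟨x, l⟩
    · refine ⟨φ j h, [], hl, by simp [NS], ?_⟩
      rw [PushoutI.of_apply_eq_base, PushoutI.of_apply_eq_base]
    · obtain ⟨i', y⟩ := x
      have hl' : Red φ l := ⟨fun x hx => hl.1 x (List.mem_cons_of_mem _ hx),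
        hl.2.tail⟩
      by_cases hij : i' = j
      · subst hij
        refine ⟨φ i' h * y, l, hl', ?_, ?_⟩
        · intro z hz
          have h1 := (List.isChain_cons.mp hl.2).1 z hz
          exact fun h => h1 h.symm
        · rw [P_cons, map_mul, PushoutI.of_apply_eq_base, PushoutI.of_apply_eq_base, mul_assoc]
      · refine ⟨φ j h, ⟨i', y⟩ :: l, hl, ?_, ?_⟩
        · intro z hz
          simp only [List.head?_cons, Option.mem_def, Option.some.injEq] at hz
          rw [← hz]
          exact hij
        · rw [PushoutI.of_apply_eq_base, PushoutI.of_apply_eq_base]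
  have hof : ∀ (i j : ι) (x : K i) (g : PushoutI φ),
      (∀ j, ∃ (k : K j) (l : List (Σ i, K i)), Red φ l ∧ NS j l ∧ g = PushoutI.of j k * P φ l) →
      ∃ (k : K j) (l : List (Σ i, K i)), Red φ l ∧ NS j l ∧
        PushoutI.of i x * g = PushoutI.of j k * P φ l := by
    intro i j x g hg
    obtain ⟨k, l, hl, hns, rfl⟩ := hg i
    by_cases hij : i = j
    · subst hij
      refine ⟨x * k, l, hl, hns, ?_⟩
      rw [map_mul, mul_assoc]
    · by_cases hx : x * k ∈ (φ i).range
      · obtain ⟨h, hh⟩ := hx
        rw [← mul_assoc, ← map_mul, ← hh]
        exact hb i j h l hl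
      · refine ⟨1, ⟨i, x * k⟩ :: l, ⟨?_, ?_⟩, ?_, ?_⟩
        · intro z hz
          rw [List.mem_cons] at hz
          rcases hz with rfl | hz
          · exact hx
          · exact hl.1 z hz
        · rw [List.isChain_cons]
          refine ⟨fun z hz => ?_, hl.2⟩
          exact (hns z hz).symm
        · intro z hz
          simp only [List.head?_cons, Option.mem_def, Option.some.injEq] at hz
          rw [← hz]
          exact hij
        · rw [P_cons, map_one, one_mul, map_mul, mul_assoc]
  have key : ∀ x : PushoutI φ, ∀ g : PushoutI φ,
      (∀ j, ∃ (k : K j) (l : List (Σ i, K i)), Red φ l ∧ NS j l ∧ g = PushoutI.of j k * P φ l) →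
      (∀ j, ∃ (k : K j) (l : List (Σ i, K i)), Red φ l ∧ NS j l ∧
        x * g = PushoutI.of j k * P φ l) := by
    intro x
    induction x using PushoutI.induction_on with
    | of i x => exact fun g hg j => hof i j x g hg
    | base h =>
      intro g hg j
      rw [← PushoutI.of_apply_eq_base φ j h]
      exact hof j j (φ j h) g hg
    | mul x y ihx ihy =>
      intro g hg j
      rw [mul_assoc]
      exact ihx _ (ihy g hg) j
  have h1 := key g 1 (fun j => ⟨1, [], ⟨by simp, List.isChain_nil⟩, by simp [NS], by simp [P_nil]⟩) j
  rw [mul_one] at h1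
  exact h1

/-- conjugates of elements outside the amalgamated subgroup -/
theorem conj_of (hφ : ∀ i, Function.Injective (φ i)) {i j : ι} {y : K i} (hy : y ∉ (φ i).range)
    {l : List (Σ i, K i)} (hl : Red φ l) (hns : NS i l)
    (h : (P φ l)⁻¹ * PushoutI.of i y * P φ l ∈ (PushoutI.of j : K j →* PushoutI φ).range) :
    l = [] ∧ i = j := by
  have hred : Red φ (inv l ++ (⟨i, y⟩ :: l)) := by
    constructor
    · intro x hx
      rw [List.mem_append, List.mem_cons] at hx
      rcases hx with hx | rfl | hx
      · exact (red_inv hl).1 x hx
      · exact hy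
      · exact hl.1 x hx
    · rw [List.isChain_append]
      refine ⟨(red_inv hl).2, ?_, ?_⟩
      · rw [List.isChain_cons]
        exact ⟨fun z hz => (hns z hz).symm, hl.2⟩
      · intro x hx z hz
        simp only [List.head?_cons, Option.mem_def, Option.some.injEq] at hz
        rw [← hz]
        unfold inv at hx
        rw [List.getLast?_reverse, List.head?_map] at hx
        rw [Option.mem_map] at hx
        obtain ⟨w, hw, rfl⟩ := hx
        exact hns w hw
  have h1 := red_of hφ hred j (by
    rw [P_append, P_cons, P_inv, ← mul_assoc]
    exact h)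
  rcases h1 with h1 | ⟨k, h1⟩
  · simp at h1
  · have h2 := congrArg List.length h1
    simp only [List.length_append, List.length_cons, List.length_nil] at h2
    have h3 : l.length = 0 := by
      have : (inv l).length = l.length := by simp [inv]
      omega
    have h4 : l = [] := List.length_eq_zero_iff.mp h3
    subst h4
    have h5 : ([⟨i, y⟩] : List (Σ i, K i)) = [⟨j, k⟩] := h1
    refine ⟨rfl, ?_⟩
    exact congrArg Sigma.fst (List.singleton_inj.mp h5)

end Pool.Agent.Q177.EC
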